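import Mathlib
import Pool.Agent.H47.SIC.PrimePower

set_option autoImplicit false

namespace Pool.Agent.Results.MP_d0f9e0_co.PrimePowerPhases

/-- The vectors `x i`, `i ∈ T`, are unit vectors of `ℂ^d` with the pairwise angle of a maximal
ETF: `|⟨x_i, x_j⟩| = 1/√(d+1)` for `i ≠ j` in `T`. (If `x` is a maximal ETF this holds for every
set `T` of indices.) -/
def IsPartial {ι : Type*} (d : ℕ) (x : ι → EuclideanSpace ℂ (Fin d)) (T : Finset ι) : Prop :=
  (∀ i ∈ T, ‖x i‖ = 1) ∧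
    ∀ i ∈ T, ∀ j ∈ T, i ≠ j → ‖inner ℂ (x i) (x j)‖ = 1 / Real.sqrt ((d : ℝ) + 1)

/-- The phase of three lines: the triple product `⟨x_i,x_j⟩⟨x_j,x_k⟩⟨x_k,x_i⟩` multiplied by
`√(d+1)³`, a complex number of modulus one. -/
noncomputable def phase {ι : Type*} {d : ℕ} (x : ι → EuclideanSpace ℂ (Fin d)) (i j k : ι) : ℂ :=
  ((Real.sqrt ((d : ℝ) + 1) : ℝ) : ℂ) ^ 3 *
    (inner ℂ (x i) (x j) * inner ℂ (x j) (x k) * inner ℂ (x k) (x i))

open Pool.Agent.H47.SIC in
/-- Let `d ≥ 1` and let `T` be a set of at least `d + 2` of the `d²` lines of a maximal ETF in `ℂ^d`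
(or only of lines of `ℂ^d` with the same pairwise angle) such that all phases of triples of
distinct lines of `T` are roots of unity of order a power of a prime `p`. Then `p` divides `d`, and
`d + 1` is a perfect square if `p` is odd. -/
theorem result {ι : Type*} {d : ℕ} (hd : 1 ≤ d) (x : ι → EuclideanSpace ℂ (Fin d))
    (T : Finset ι) (hT : IsPartial d x T) (hcard : d + 2 ≤ T.card) {p a : ℕ} (hp : p.Prime)
    (hphase : ∀ i ∈ T, ∀ j ∈ T, ∀ k ∈ T, i ≠ j → j ≠ k → k ≠ i → phase x i j k ^ p ^ a = 1) :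
    p ∣ d ∧ (p ≠ 2 → IsSquare (d + 1)) := by
  classical
  let y : T → EuclideanSpace ℂ (Fin d) := fun i => x i
  have hy : IsSystem d y :=
    ⟨fun i => hT.1 i i.2, fun i j hij => hT.2 i i.2 j j.2 (fun h => hij (Subtype.ext h))⟩
  have hn : d + 2 ≤ Fintype.card T := by rw [Fintype.card_coe]; exact hcard
  have hph : ∀ i j k : T, i ≠ j → j ≠ k → k ≠ i → ph y i j k ^ p ^ a = 1 := by
    intro i j k hij hjk hki
    exact hphase i i.2 j j.2 k k.2 (fun h => hij (Subtype.ext h)) (fun h => hjk (Subtype.ext h))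
      (fun h => hki (Subtype.ext h))
  obtain ⟨V, hV⟩ := exists_val p hp
  exact ⟨(dvd_d hy hd hn hp hph hV).2, fun hp2 => isSquare_of hy hd hn hp hp2 hph⟩

end Pool.Agent.Results.MP_d0f9e0_co.PrimePowerPhases
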