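import Mathlib
import Pool.Agent.H47.SIC.Spec

set_option autoImplicit false

namespace Pool.Agent.Results.MP_d0f9e0_co.SquaredPhases

/-- The vectors `x i`, `i ∈ T`, are unit vectors of `ℂ^d` with the pairwise angle of a maximal
ETF: `|⟨x_i, x_j⟩| = 1/√(d+1)` for `i ≠ j` in `T`. (If `x` is a maximal ETF this holds for every
set `T` of indices.) -/
def IsPartial {ι : Type*} (d : ℕ) (x : ι → EuclideanSpace ℂ (Fin d)) (T : Finset ι) : Prop :=
  (∀ i ∈ T, ‖x i‖ = 1) ∧
    ∀ i ∈ T, ∀ j ∈ T, i ≠ j → ‖inner ℂ (x i) (x j)‖ = 1 / Real.sqrt ((d : ℝ) + 1)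

/-- The phase of three lines: the triple product `⟨x_i,x_j⟩⟨x_j,x_k⟩⟨x_k,x_i⟩` multiplied by
`√(d+1)³`, a complex number of modulus one. -/
noncomputable def phase {ι : Type*} {d : ℕ} (x : ι → EuclideanSpace ℂ (Fin d)) (i j k : ι) : ℂ :=
  ((Real.sqrt ((d : ℝ) + 1) : ℝ) : ℂ) ^ 3 *
    (inner ℂ (x i) (x j) * inner ℂ (x j) (x k) * inner ℂ (x k) (x i))

/-- The phases of the triples of distinct lines of `T`. -/
def phases {ι : Type*} {d : ℕ} (x : ι → EuclideanSpace ℂ (Fin d)) (T : Finset ι) : Set ℂ :=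
  {z | ∃ i ∈ T, ∃ j ∈ T, ∃ k ∈ T, i ≠ j ∧ j ≠ k ∧ k ≠ i ∧ z = phase x i j k}

open Pool.Agent.H47.SIC in
/-- Let `d ≥ 1` and let `T` be a set of at least `d(d+1)/2 + 2` lines of a maximal ETF in `ℂ^d`
(or only of lines of `ℂ^d` with the same pairwise angle). For every valuation ring `V` of the
complex field there is a phase `z ≠ ±1` of `T` such that `z² - 1` divides `d` in `V`; consequently
every homomorphism from the ring generated by the phases of `T` to a field which takes every phase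
to `±1` takes `d` to zero. -/
theorem result {ι : Type*} {d : ℕ} (hd : 1 ≤ d) (x : ι → EuclideanSpace ℂ (Fin d))
    (T : Finset ι) (hT : IsPartial d x T) (hcard : d * (d + 1) / 2 + 2 ≤ T.card) :
    (∀ V : ValuationSubring ℂ, ∃ z ∈ phases x T, z ^ 2 ≠ 1 ∧ (d : ℂ) / (z ^ 2 - 1) ∈ V) ∧
    ∀ (F : Type) [Field F] (f : Subring.closure (phases x T) →+* F),
      (∀ z (hz : z ∈ phases x T), f ⟨z, Subring.subset_closure hz⟩ ^ 2 = 1) → (d : F) = 0 := by
  classical
  have hmain : ∀ V : ValuationSubring ℂ,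
      ∃ z ∈ phases x T, z ^ 2 ≠ 1 ∧ (d : ℂ) / (z ^ 2 - 1) ∈ V := by
    intro V
    let y : T → EuclideanSpace ℂ (Fin d) := fun i => x i
    have hy : IsSystem d y :=
      ⟨fun i => hT.1 i i.2, fun i j hij => hT.2 i i.2 j j.2 (fun h => hij (Subtype.ext h))⟩
    have hn : (d + 1).choose 2 + 2 ≤ Fintype.card T := by
      rw [Fintype.card_coe, Nat.choose_two_right]
      have : (d + 1) * (d + 1 - 1) = d * (d + 1) := by
        rw [Nat.add_sub_cancel]; ring
      rw [this]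
      exact hcard
    obtain ⟨o⟩ : Nonempty T := Fintype.card_pos_iff.mp (by omega)
    obtain ⟨j, k, h1, h2, h3, h4, h5⟩ := val_sq hy hd hn V o
    exact ⟨ph y o j k, ⟨o, o.2, j, j.2, k, k.2, fun h => h1 (Subtype.ext h),
      fun h => h2 (Subtype.ext h), fun h => h3 (Subtype.ext h), rfl⟩, h4, h5⟩
  refine ⟨hmain, ?_⟩
  intro F _ f hf
  by_contra hd0
  obtain ⟨V, hV1, hV2⟩ := exists_val_of_hom (Subring.closure (phases x T)) f
  obtain ⟨z, hz, hz1, hz2⟩ := hmain V
  have h1 : z ^ 2 - 1 ∈ V.nonunits := by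
    have h2 := hV1 (⟨z, Subring.subset_closure hz⟩ ^ 2 - 1) (by
      rw [map_sub, map_pow, map_one, hf z hz, sub_self])
    simpa using h2
  apply hV2 (d : Subring.closure (phases x T)) (by rw [map_natCast]; exact hd0)
  have h3 : (((d : Subring.closure (phases x T)) : Subring.closure (phases x T)) : ℂ) =
      (d : ℂ) / (z ^ 2 - 1) * (z ^ 2 - 1) := by
    push_cast
    field_simp [sub_ne_zero.mpr hz1]
  rw [h3]
  exact mul_mem_nonunits hz2 h1

end Pool.Agent.Results.MP_d0f9e0_co.SquaredPhases
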